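import Pool.Agent.Helper41.LD.Defs
import Pool.Agent.Helper33.LD.WA

/-!
# Project LD, block WB2: the pending variance
-/

set_option autoImplicit false
set_option maxHeartbeats 400000

namespace Pool.Agent.Helper88.LD

open Set MeasureTheory Filter Topology Pool.Agent.Helper41.LD

variable {θ : ℝ} {c : ℕ → ℝ}

lemma ind_nonneg (k i : ℕ) (t : ℝ) : 0 ≤ ind k i t := by
  unfold ind
  split_ifs <;> norm_num

lemma ind_le_one (k i : ℕ) (t : ℝ) : ind k i t ≤ 1 := by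
  unfold ind
  split_ifs <;> norm_num

lemma measurable_ind (k i : ℕ) : Measurable (ind k i) := by
  unfold ind
  refine Measurable.ite ?_ measurable_const measurable_const
  have h : Measurable fun t : ℝ => ⌊(2 : ℝ) ^ k * Int.fract t⌋ :=
    Int.measurable_floor.comp (measurable_fract.const_mul _)
  exact measurableSet_eq_fun h measurable_const

lemma measurable_u (j : ℕ) : Measurable (u θ c j) := by
  unfold u
  fun_prop

lemma measurable_haar (k i : ℕ) : Measurable (haar k i) := by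
  unfold haar
  exact (measurable_ind _ _).sub (measurable_ind _ _)

/-- the square of a Haar function is at most the indicator of its interval -/
lemma haar_sq (k i : ℕ) (t : ℝ) : haar k i t ^ 2 ≤ ind k i t := by
  have h0 : (0 : ℝ) ≤ 2 ^ k * Int.fract t := by
    have := Int.fract_nonneg t
    positivity
  have h1 : (2 : ℝ) ^ (k + 1) * Int.fract t = 2 * (2 ^ k * Int.fract t) := by ring
  unfold haar ind
  rw [h1]
  set y : ℝ := 2 ^ k * Int.fract t with hy
  by_cases h2 : ⌊y⌋ = (i : ℤ)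
  · rw [if_pos h2]
    split_ifs <;> norm_num
  · rw [if_neg h2]
    have h3 : ¬ ⌊2 * y⌋ = ((2 * i : ℕ) : ℤ) := by
      intro h
      apply h2
      rw [Int.floor_eq_iff] at h ⊢
      push_cast at h ⊢
      constructor <;> linarith [h.1, h.2]
    have h4 : ¬ ⌊2 * y⌋ = ((2 * i + 1 : ℕ) : ℤ) := by
      intro h
      apply h2
      rw [Int.floor_eq_iff] at h ⊢
      push_cast at h ⊢
      constructor <;> linarith [h.1, h.2]
    rw [if_neg h3, if_neg h4]
    norm_num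

lemma haar_sq_le_one (k i : ℕ) (t : ℝ) : haar k i t ^ 2 ≤ 1 := (haar_sq k i t).trans (ind_le_one k i t)

lemma abs_haar_le (k i : ℕ) (t : ℝ) : |haar k i t| ≤ 1 := by
  rw [← sq_le_one_iff_abs_le_one]
  exact haar_sq_le_one k i t

lemma intble_of_bdd {f : ℝ → ℝ} (hf : Measurable f) {C : ℝ} (hC : ∀ x, |f x| ≤ C) (a b : ℝ) :
    IntervalIntegrable f volume a b := by
  refine (intervalIntegrable_const (c := C)).mono_fun hf.aestronglyMeasurable ?_
  refine Filter.Eventually.of_forall fun x => ?_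
  beta_reduce
  rw [Real.norm_eq_abs, Real.norm_eq_abs]
  exact (hC x).trans (le_abs_self C)

lemma av_nonneg {ψ : ℝ → ℝ} (h : ∀ x, 0 ≤ ψ x) (a : ℝ) {ℓ : ℝ} (hℓ : 0 < ℓ) : 0 ≤ av ψ a ℓ := by
  unfold av
  exact div_nonneg (intervalIntegral.integral_nonneg (by linarith) fun x _ => h x) hℓ.le

lemma var_nonneg (ψ : ℝ → ℝ) (a : ℝ) {ℓ : ℝ} (hℓ : 0 < ℓ) : 0 ≤ var ψ a ℓ :=
  av_nonneg (fun _ => sq_nonneg _) a hℓ

lemma var_le {ψ : ℝ → ℝ} (hψ : Measurable ψ) {C : ℝ} (hC : ∀ x, |ψ x| ≤ C) (a : ℝ) {ℓ : ℝ} (hℓ : 0 < ℓ) :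
    var ψ a ℓ ≤ av (fun x => ψ x ^ 2) a ℓ := by
  have i1 := intble_of_bdd hψ hC a (a + ℓ)
  have hC0 : 0 ≤ C := (abs_nonneg _).trans (hC 0)
  have i2 : IntervalIntegrable (fun x => ψ x ^ 2) volume a (a + ℓ) :=
    intble_of_bdd (hψ.pow_const 2) (C := C ^ 2) (fun x => by
      rw [abs_pow]
      exact pow_le_pow_left₀ (abs_nonneg _) (hC x) 2) a (a + ℓ)
  set m : ℝ := av ψ a ℓ with hm
  have hI : ∫ x in a..(a + ℓ), ψ x = m * ℓ := by
    rw [hm]
    unfold av
    field_simp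
  have h1 : ∫ x in a..(a + ℓ), (ψ x - m) ^ 2 = (∫ x in a..(a + ℓ), ψ x ^ 2) - m ^ 2 * ℓ := by
    have e : ∀ x, (ψ x - m) ^ 2 = ψ x ^ 2 - (2 * m) * ψ x + m ^ 2 := fun x => by ring
    simp_rw [e]
    rw [intervalIntegral.integral_add (i2.sub (i1.const_mul _)) intervalIntegrable_const,
      intervalIntegral.integral_sub i2 (i1.const_mul _), intervalIntegral.integral_const_mul, hI,
      intervalIntegral.integral_const, smul_eq_mul]
    ring
  unfold var
  unfold av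
  rw [show (∫ x in a..(a + ℓ), ψ x) / ℓ = m from rfl, h1]
  refine div_le_div_of_nonneg_right ?_ hℓ.le
  have : 0 ≤ m ^ 2 * ℓ := by positivity
  linarith

lemma av_mono {f g : ℝ → ℝ} (hf : Measurable f) (hg : Measurable g) {C : ℝ} (hfC : ∀ x, |f x| ≤ C)
    (hgC : ∀ x, |g x| ≤ C) (h : ∀ x, f x ≤ g x) (a : ℝ) {ℓ : ℝ} (hℓ : 0 < ℓ) : av f a ℓ ≤ av g a ℓ := by
  unfold av
  refine div_le_div_of_nonneg_right ?_ hℓ.le
  exact intervalIntegral.integral_mono (by linarith) (intble_of_bdd hf hfC _ _) (intble_of_bdd hg hgC _ _) h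

lemma var_haar_le (k i j : ℕ) (a : ℝ) {ℓ : ℝ} (hℓ : 0 < ℓ) :
    var (fun x => haar k i (u θ c j x)) a ℓ ≤ av (fun x => ind k i (u θ c j x)) a ℓ := by
  refine (var_le ((measurable_haar k i).comp (measurable_u j)) (C := 1) (fun x => abs_haar_le k i _) a hℓ).trans ?_
  refine av_mono (C := 1) (((measurable_haar k i).comp (measurable_u j)).pow_const 2)
    ((measurable_ind k i).comp (measurable_u j)) (fun x => ?_) (fun x => ?_) (fun x => haar_sq k i _) a hℓ
  · rw [abs_of_nonneg (sq_nonneg _)]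
    exact haar_sq_le_one k i _
  · rw [Function.comp_apply, abs_of_nonneg (ind_nonneg _ _ _)]
    exact ind_le_one _ _ _

lemma av_ind_le_one (k i j : ℕ) (a : ℝ) {ℓ : ℝ} (hℓ : 0 < ℓ) : av (fun x => ind k i (u θ c j x)) a ℓ ≤ 1 := by
  have h := av_mono (f := fun x => ind k i (u θ c j x)) (g := fun _ => 1) (C := 1)
    ((measurable_ind k i).comp (measurable_u j)) measurable_const (fun x => by
      rw [abs_of_nonneg (ind_nonneg _ _ _)]
      exact ind_le_one _ _ _) (fun x => by norm_num) (fun x => ind_le_one _ _ _) a hℓ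
  refine h.trans (le_of_eq ?_)
  unfold av
  rw [intervalIntegral.integral_const, smul_eq_mul]
  field_simp
  ring

theorem W_nonneg (n r k i : ℕ) {a ℓ : ℝ} (hℓ : 0 < ℓ) : 0 ≤ W θ c n r k i a ℓ := by
  unfold W
  exact mul_nonneg (Nat.cast_nonneg _) (Finset.sum_nonneg fun j _ => var_nonneg _ _ hℓ)

theorem W_le (n r k i : ℕ) {a ℓ : ℝ} (hℓ : 0 < ℓ) : W θ c n r k i a ℓ ≤ (r : ℝ) ^ 2 := by
  unfold W
  have h : ∑ j ∈ Finset.Ico (n - r) n, var (fun x => haar k i (u θ c j x)) a ℓ ≤ r := by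
    refine (Finset.sum_le_card_nsmul _ _ 1 fun j _ => (var_haar_le k i j a hℓ).trans (av_ind_le_one k i j a hℓ)).trans ?_
    rw [Nat.card_Ico, nsmul_eq_mul, mul_one]
    exact_mod_cast (by omega : n - (n - r) ≤ r)
  rw [sq]
  exact mul_le_mul_of_nonneg_left h (Nat.cast_nonneg _)

/-- sum of the averages over the children -/
lemma av_children {f : ℝ → ℝ} (hf : Measurable f) {C : ℝ} (hC : ∀ x, |f x| ≤ C) (a : ℝ) {ℓ : ℝ} (hℓ : 0 < ℓ) {B : ℕ}
    (hB : 1 ≤ B) : ∑ b ∈ Finset.range B, av f (a + b * (ℓ / B)) (ℓ / B) = B * av f a ℓ := by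
  have hB0 : (B : ℝ) ≠ 0 := by
    have : (0 : ℝ) < B := by exact_mod_cast hB
    exact this.ne'
  have h := intervalIntegral.sum_integral_adjacent_intervals (f := f) (μ := volume)
    (a := fun b : ℕ => a + b * (ℓ / B)) (n := B) fun k _ => intble_of_bdd hf hC _ _
  have e0 : a + ((0 : ℕ) : ℝ) * (ℓ / B) = a := by simp
  have e1 : a + (B : ℝ) * (ℓ / B) = a + ℓ := by
    rw [mul_div_cancel₀ _ hB0]
  simp only [e0, e1] at h
  unfold av
  rw [← Finset.sum_div]
  have h2 : ∀ b : ℕ, a + (b : ℝ) * (ℓ / B) + ℓ / B = a + ((b + 1 : ℕ) : ℝ) * (ℓ / B) := fun b => by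
    push_cast
    ring
  simp_rw [h2]
  rw [h]
  field_simp

theorem W_mean_of (hInd : ∀ {α : ℝ}, 0 < α → ∀ (k i : ℕ) (c a b : ℝ), a ≤ b →
      ∫ x in a..b, ind k i (α * x + c) ≤ (α * (b - a) + 1) * (1 / 2) ^ k / α)
    (hθ : 1 < θ) {n L r : ℕ} (k i : ℕ) {a ℓ : ℝ} (hw : Win θ n ℓ) {B : ℕ} (hB : 1 ≤ B) (hr : r ≤ L) :
    ∑ b ∈ Finset.range B, W θ c (n + L) r k i (a + b * (ℓ / B)) (ℓ / B) ≤ B * (2 * r ^ 2 * (1 / 2) ^ k) := by
  have hB0 : (0 : ℝ) < B := by exact_mod_cast hB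
  have hn0 : 0 < θ ^ n := by positivity
  have hℓ : 0 < ℓ := by
    have := hw.1
    by_contra h
    have : θ ^ n * ℓ ≤ 0 := mul_nonpos_of_nonneg_of_nonpos hn0.le (not_lt.1 h)
    linarith
  have hℓB : 0 < ℓ / B := by positivity
  have h1 : ∀ j ∈ Finset.Ico (n + L - r) (n + L),
      ∑ b ∈ Finset.range B, var (fun x => haar k i (u θ c j x)) (a + b * (ℓ / B)) (ℓ / B) ≤ B * (2 * (1 / 2) ^ k) := by
    intro j hj
    rw [Finset.mem_Ico] at hj
    refine (Finset.sum_le_sum fun b _ => var_haar_le k i j _ hℓB).trans ?_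
    rw [av_children (f := fun x => ind k i (u θ c j x)) ((measurable_ind k i).comp (measurable_u j)) (C := 1)
      (fun x => by
        rw [abs_of_nonneg (ind_nonneg _ _ _)]
        exact ind_le_one _ _ _) a hℓ hB]
    refine mul_le_mul_of_nonneg_left ?_ hB0.le
    have hj0 : 0 < θ ^ j := by positivity
    have h2 := hInd hj0 k i (c j) a (a + ℓ) (by linarith)
    have h3 : ∫ x in a..(a + ℓ), ind k i (u θ c j x) = ∫ x in a..(a + ℓ), ind k i (θ ^ j * x + c j) := by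
      congr 1
      funext x
      unfold u
      rw [mul_comm x]
    unfold av
    rw [h3, div_le_iff₀ hℓ]
    refine h2.trans ?_
    have h4 : 1 ≤ θ ^ j * ℓ := hw.1.trans
      (mul_le_mul_of_nonneg_right (pow_le_pow_right₀ hθ.le (by omega)) hℓ.le)
    have h5 : (0 : ℝ) < (1 / 2) ^ k := by positivity
    rw [div_le_iff₀ hj0, show a + ℓ - a = ℓ by ring]
    nlinarith
  unfold W
  rw [← Finset.mul_sum, Finset.sum_comm]
  have h6 : ∑ j ∈ Finset.Ico (n + L - r) (n + L),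
      ∑ b ∈ Finset.range B, var (fun x => haar k i (u θ c j x)) (a + b * (ℓ / B)) (ℓ / B) ≤
      r * (B * (2 * (1 / 2) ^ k)) := by
    refine (Finset.sum_le_card_nsmul _ _ _ h1).trans ?_
    rw [Nat.card_Ico, nsmul_eq_mul]
    refine mul_le_mul_of_nonneg_right ?_ (by positivity)
    exact_mod_cast (by omega : n + L - (n + L - r) ≤ r)
  calc _ ≤ (r : ℝ) * (r * (B * (2 * (1 / 2) ^ k))) := mul_le_mul_of_nonneg_left h6 (Nat.cast_nonneg _)
    _ = _ := by ring

theorem W_mean (hθ : 1 < θ) {n L r : ℕ} (k i : ℕ) {a ℓ : ℝ} (hw : Win θ n ℓ) {B : ℕ} (hB : 1 ≤ B) (hr : r ≤ L) :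
    ∑ b ∈ Finset.range B, W θ c (n + L) r k i (a + b * (ℓ / B)) (ℓ / B) ≤ B * (2 * r ^ 2 * (1 / 2) ^ k) :=
  W_mean_of (fun hα k i c a b hab => Pool.Agent.Helper33.LD.int_ind_le hα k i c a b hab) hθ k i hw hB hr

end Pool.Agent.Helper88.LD
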